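import Pool.Agent.DpTree.Family

/-!
# A distal dp-minimal structure with a definable downward directed family that does not extend
to a definable type

The structure `M` (called `Elt` in the helper files): an element consists of a sort (one of two),
a level `d` and a word in `{0, 1}` of length `d`.  A finite list of elements is allowed when every
level and every sort occurs an even number of times in it; its valuation is the least `n` such that
some member has level at most `n` or the `n`-th bits of the members add up to `1` modulo two.  The
basic relations compare the valuations of two allowed lists up to adding a natural number.

For `b` in `M` let `X_b` be the set of pairs `(x, y)` of elements of the same level, at least the
level of `b`, and of opposite sorts.  A definable type containing all `X_b` would yield a definable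
branch of an unlabelled binary tree, but flipping one bit of all elements of one sort and of large
level is an automorphism fixing any given finite set of parameters.
-/

open FirstOrder FirstOrder.Language

namespace Pool.Agent.Results.MP_6a1f82_lc.NoDefinableType

open Pool.Agent.DpTree

/-- There is an infinite structure that is dp-minimal and distal, with a definable downward
directed family of nonempty subsets of some `Mⁿ` that is not contained in any definable complete
type over `M`. -/
theorem result : ∃ (L : FirstOrder.Language.{0, 0}) (M : Type) (_ : L.Structure M),
    Infinite M ∧ DpMinimal L M ∧ Distal L M ∧ HasBadFamily L M :=
  ⟨Ltree, Elt, inferInstance, inferInstance, dpMinimal, distal, hasBadFamily⟩

end Pool.Agent.Results.MP_6a1f82_lc.NoDefinableType
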